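import Mathlib
import Pool.Agent.H48.DayNordlander

/-!
A two-dimensional real Banach space `X` with `γ⁺_X(ε) < ε^2` for `ε = 13/16`.
The space is constructed, and the estimate proved, in `Pool.Agent.H48.DayNordlander`.
-/

set_option autoImplicit false

namespace Pool.Agent.Results.MP_a1f11a_an.DayNordlanderFails

/-- `J₁(x)`: the norming functionals of norm one of the vector `x`. -/
def J1 {X : Type*} [NormedAddCommGroup X] [NormedSpace ℝ X] (x : X) : Set (StrongDual ℝ X) :=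
  {p | ‖p‖ = 1 ∧ p x = ‖x‖}

/-- The set of all numbers `⟨p₁ - p₂, x₁ - x₂⟩` with `x₁, x₂` in the unit sphere of `X`,
`‖x₁ - x₂‖ = ε`, `p₁ ∈ J₁(x₁)` and `p₂ ∈ J₁(x₂)`. -/
def gammaSet (X : Type*) [NormedAddCommGroup X] [NormedSpace ℝ X] (ε : ℝ) : Set ℝ :=
  {r | ∃ x₁ x₂ : X, ‖x₁‖ = 1 ∧ ‖x₂‖ = 1 ∧ ‖x₁ - x₂‖ = ε ∧
    ∃ p₁ ∈ J1 x₁, ∃ p₂ ∈ J1 x₂, r = (p₁ - p₂) (x₁ - x₂)}

/-- The modulus `γ⁺_X(ε)`, the supremum of `gammaSet X ε`. -/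
noncomputable def gammaPlus (X : Type*) [NormedAddCommGroup X] [NormedSpace ℝ X] (ε : ℝ) : ℝ :=
  sSup (gammaSet X ε)

/-- There is a two-dimensional real Banach space `X` with `γ⁺_X(13/16) < (13/16)^2`. The set whose
supremum is `γ⁺_X(13/16)` is nonempty and bounded above. -/
theorem result : ∃ (X : Type) (_ : NormedAddCommGroup X) (_ : NormedSpace ℝ X),
    Module.finrank ℝ X = 2 ∧ CompleteSpace X ∧ (gammaSet X (13/16)).Nonempty ∧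
    BddAbove (gammaSet X (13/16)) ∧ gammaPlus X (13/16) < (13/16)^2 := by
  obtain ⟨X, i1, i2, h1, h2, h3, x, y, P, Q, hx, hy, hxy, hP1, hP2, hQ1, hQ2⟩ :=
    Pool.Agent.H48.DayNordlander.main
  have hne : (gammaSet X (13/16)).Nonempty :=
    ⟨_, x, y, hx, hy, hxy, P, ⟨hP1, hP2⟩, Q, ⟨hQ1, hQ2⟩, rfl⟩
  have hb : ∀ r ∈ gammaSet X (13/16), r ≤ 33/50 := by
    rintro r ⟨x, y, hx, hy, hxy, P, ⟨hP1, hP2⟩, Q, ⟨hQ1, hQ2⟩, rfl⟩
    exact h3 x y P Q hx hy hxy hP1 hP2 hQ1 hQ2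
  refine ⟨X, i1, i2, h1, h2, hne, ⟨33/50, hb⟩, ?_⟩
  unfold gammaPlus
  exact lt_of_le_of_lt (csSup_le hne hb) (by norm_num)

end Pool.Agent.Results.MP_a1f11a_an.DayNordlanderFails
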